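import Pool.Agent.Lib.MP_4fbe7c_an.UL.H17.Clu
import Pool.Agent.Lib.MP_4fbe7c_an.UL.H17.Exi
import Pool.Agent.Lib.MP_4fbe7c_an.UL.H17.Gap
import Pool.Agent.Lib.MP_4fbe7c_an.UL.H17.Level
import Pool.Agent.Lib.MP_4fbe7c_an.UL.H17.Tps
import Pool.Agent.Lib.MP_4fbe7c_an.UL.H18.Out
import Pool.Agent.Lib.MP_4fbe7c_an.UL.H20.P4b
import Pool.Agent.Lib.MP_4fbe7c_an.UL.H32.Eta
import Pool.Agent.Lib.MP_4fbe7c_an.UL.H33.Dvf
import Pool.Agent.Lib.MP_4fbe7c_an.UL.H45.Dis
import Pool.Agent.Lib.MP_4fbe7c_an.UL.H54.Alg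
import Pool.Agent.Lib.MP_4fbe7c_an.UL.H54.Hsb
import Pool.Agent.Lib.MP_4fbe7c_an.UL.H56.Wts
import Pool.Agent.Lib.MP_4fbe7c_an.UL.H59.Sml
import Pool.Agent.Lib.MP_4fbe7c_an.UL.H63.Lbf
import Pool.Agent.Lib.MP_4fbe7c_an.UL.H63.Mrg
import Pool.Agent.Lib.MP_4fbe7c_an.UL.H63.Sta
import Pool.Agent.Lib.MP_4fbe7c_an.UL.H93.Crb
import Pool.Agent.Lib.MP_4fbe7c_an.UL.H97.Cra

/-!
Project UL (MP_4fbe7c_an): the module statements, proved (all but CLO, CRI).
-/

set_option autoImplicit false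

namespace Pool.Agent.Lib.MP_4fbe7c_an.UL

theorem exi_st : ExiStatement := H17.exi
theorem tps_st : TpsStatement := H17.tps
theorem gap_st : GapStatement := H17.gap
theorem level_st : LevelStatement := H17.level
theorem clu_st : CluStatement := H17.clu gap_st level_st
theorem p4b_st : P4bStatement := H20.p4b
theorem hsb_st : HsbStatement := H54.hsb
theorem out_st : OutStatement := H18.out tps_st p4b_st hsb_st
theorem alg_st : AlgStatement := H54.alg exi_st clu_st out_st
theorem eta_st : EtaStatement := H32.eta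
theorem wts_st : WtsStatement := H56.wts eta_st
theorem rts_st : RtsStatement := H63.rts
theorem sta_st : StaStatement := H63.sta
theorem dvf_st : DvfStatement := H33.dvf
theorem dis_st : DisStatement := H45.dis alg_st eta_st wts_st sta_st dvf_st
theorem lbf_st : LbfStatement := H63.lbf wts_st
theorem sml_st : SmlStatement := H59.sml
theorem mrg_st : MrgStatement := H63.mrg
theorem cra_of (h : CriStatement) : CraStatement := H97.cra h
theorem crb_of (h : CriStatement) : CrbStatement := H93.crb h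

end Pool.Agent.Lib.MP_4fbe7c_an.UL
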