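import Pool.Agent.Lib.MP_4fbe7c_an.FC.Iface

/-!
Project UL (MP_4fbe7c_an): the slowest disperser wins for every number of species and all rates,
if the steady state of the slowest species is nearly constant (absolute constant 1.001).
Definitions and the statements of all modules.
Proofs on paper: `Pool/Agent/Lib/MP_4fbe7c_an/UL/Paper.md`.
-/

set_option autoImplicit false

open Set

namespace Pool.Agent.Lib.MP_4fbe7c_an.UL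

open Pool.Agent.Lib.MP_4fbe7c_an.SD Pool.Agent.Lib.MP_4fbe7c_an.FC

/-! ### Part A: the algebraic theorem -/

section defs

/-- `1 / (d ^ 2 - 1)` as a function of `1 / d`. -/
noncomputable def hh (t : ℝ) : ℝ := t ^ 2 / (1 - t ^ 2)

/-- `b_k = Z_k / S_k`; `e_k = bs S ZZ k`. -/
noncomputable def bs (S Z : ℕ → ℝ) (k : ℕ) : ℝ := Z k / S k

/-- `α_k = Z_k - ZZ_k / d_{k+1}`. -/
noncomputable def al (r Z ZZ : ℕ → ℝ) (k : ℕ) : ℝ := Z k - r (k + 1) * ZZ k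

/-- `ν_k = 1 / d_k - 1 / d_{k+1}`. -/
noncomputable def nu (r : ℕ → ℝ) (k : ℕ) : ℝ := r k - r (k + 1)

/-- `G_k = 1 / (d_k ^ 2 - 1) - 1 / (d_{k+1} ^ 2 - 1)`. -/
noncomputable def Gs (r : ℕ → ℝ) (k : ℕ) : ℝ := hh (r k) - hh (r (k + 1))

/-- `x_k - x_{k+1}`, `x_k = 1 / S_k`. -/
noncomputable def dx (S : ℕ → ℝ) (k : ℕ) : ℝ := 1 / S k - 1 / S (k + 1)

/-- `y_k - y_{k+1}`, `y_k = 1 / S_k ^ 2`. -/
noncomputable def dy (S : ℕ → ℝ) (k : ℕ) : ℝ := 1 / S k ^ 2 - 1 / S (k + 1) ^ 2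

/-- `Λ_k = (1 + η_k) / (1 + d_k)`. -/
noncomputable def Lm (r η : ℕ → ℝ) (k : ℕ) : ℝ := (1 + η k) * r k / (1 + r k)

/-- The level term of `j`. -/
noncomputable def lev (r η S Z ZZ : ℕ → ℝ) (ζ : ℝ) (j : ℕ) : ℝ :=
  2 * (1 + η (j + 1)) * dy S j / (1 - r (j + 1) ^ 2) * al r Z ZZ j ^ 2
    - 4 * ζ * η (j + 1) * dx S j * al r Z ZZ j

/-- The logarithmic part. -/
noncomputable def Qlog (n : ℕ) (r η S Z ZZ : ℕ → ℝ) (ζ : ℝ) : ℝ :=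
  ζ ^ 2 - ζ * (Z n + ∑ k ∈ Finset.range (n + 1), (η k * r k - η (k + 1) * r (k + 1)) * bs S ZZ k)
    + ∑ k ∈ Finset.range (n + 1), (Lm r η k - Lm r η (k + 1)) * (bs S Z k * bs S ZZ k)

/-- `T`. -/
noncomputable def Tf (n c : ℕ) (r S ZZ : ℕ → ℝ) : ℝ :=
  ∑ j ∈ Finset.Ico c n, nu r (j + 1) * ((1 - S c / S (j + 1)) * (bs S ZZ (j + 1) - bs S ZZ c))

/-- `H`. -/
noncomputable def Hf (n c : ℕ) (r S Z ZZ : ℕ → ℝ) : ℝ :=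
  ∑ j ∈ Finset.Ico c n, nu r (j + 1) *
    (S c / S (j + 1) * ((bs S Z c - bs S Z (j + 1)) * (bs S ZZ c - bs S ZZ (j + 1)))
      - (1 - S c / S (j + 1)) * (bs S Z (j + 1) * bs S ZZ (j + 1) - bs S Z c * bs S ZZ c))

/-- The quadratic form. -/
noncomputable def Qf (n c : ℕ) (lam Ā : ℝ) (r η S Z ZZ : ℕ → ℝ) (ζ : ℝ) : ℝ :=
  Qlog n r η S Z ZZ ζ + lam * ζ * Tf n c r S ZZ + Ā * Hf n c r S Z ZZ

/-- `Σ_{1 ≤ k ≤ n} G_k (e_k - b_k) ^ 2 + (W - ζ) ^ 2 + (b_0 - ζ) ^ 2`. -/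
noncomputable def Nf (n : ℕ) (r S Z ZZ : ℕ → ℝ) (ζ : ℝ) : ℝ :=
  (Z n - ζ) ^ 2 + (bs S Z 0 - ζ) ^ 2
    + ∑ j ∈ Finset.range n, Gs r (j + 1) * (bs S ZZ (j + 1) - bs S Z (j + 1)) ^ 2

/-- `𝓑`. -/
noncomputable def Bq (n c : ℕ) (r S Z : ℕ → ℝ) (ζ : ℝ) : ℝ :=
  ∑ j ∈ Finset.Ico c n, nu r (j + 1) * (bs S Z (j + 1) - ζ) ^ 2

/-- `𝓖`. -/
noncomputable def Gq (n c : ℕ) (r S Z ZZ : ℕ → ℝ) : ℝ :=
  ∑ j ∈ Finset.Ico c n, Gs r (j + 1) * (bs S ZZ (j + 1) - bs S Z (j + 1)) ^ 2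

/-- `𝓛`. -/
noncomputable def Lq (n c : ℕ) (r S Z ZZ : ℕ → ℝ) : ℝ :=
  ∑ j ∈ Finset.Ico c n, dy S j * al r Z ZZ j ^ 2

/-- The storage function. -/
noncomputable def Vst (M p g : ℝ) : ℝ := 1 / 2 * p * (max 0 (M - max 0 g)) ^ 2

end defs

/-- The rates: `r k = 1 / d_k` (`d_0 = 1`), `r (n + 1) = 0`; `c` is the last index with
`d_c ≤ 3`. -/
structure Rts (n c : ℕ) (r : ℕ → ℝ) : Prop where
  r0 : r 0 = 1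
  r1 : r 1 < 1
  rlast : r (n + 1) = 0
  rpos : ∀ k, k ≤ n → 0 < r k
  ranti : ∀ k, k ≤ n → r (k + 1) ≤ r k
  cn : c ≤ n
  rc : ∀ k, k ≤ c → 1 / 3 ≤ r k
  rc' : ∀ k, c < k → k ≤ n + 1 → r k ≤ 1 / 3

/-- The parameters. -/
structure Par (n c : ℕ) (lam : ℝ) (r η : ℕ → ℝ) : Prop where
  rts : Rts n c r
  lam1 : 1 / 1000 ≤ lam
  lam2 : lam ≤ 1 / 500
  eta0 : η 0 = 1
  etab : ∀ k, 1 ≤ k → k ≤ n → 0 ≤ η k ∧ η k ≤ 51 / 5000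
  etaanti : ∀ k, 1 ≤ k → k < n → η (k + 1) ≤ η k
  etaout : ∀ k, c < k → k ≤ n → lam ≤ η k ∧ η k ≤ lam + 1 / 50000 * r k
  etadiff : ∀ k, c < k → k < n →
    17 / 1000000 * nu r k ≤ η k - η (k + 1) ∧ η k - η (k + 1) ≤ 1 / 50000 * nu r k
  etac : 1 ≤ c → c < n → 79 / 10000 ≤ η c - η (c + 1)

/-- The state. -/
structure Sta (n : ℕ) (r S Z ZZ : ℕ → ℝ) : Prop where
  S0 : 0 < S 0
  mono : ∀ k, k < n → S k ≤ S (k + 1)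
  Sn : S n = 1
  Z0 : ZZ 0 = Z 0
  step : ∀ k, k < n → r (k + 1) * (ZZ (k + 1) - ZZ k) = Z (k + 1) - Z k

/-- EXI: the exact formula for the logarithmic part. -/
def ExiStatement : Prop :=
  ∀ (n : ℕ) (r η S Z ZZ : ℕ → ℝ) (ζ : ℝ), Sta n r S Z ZZ → r 0 = 1 → r (n + 1) = 0 → η 0 = 1 →
    (∀ k, k ≤ n → 0 < r k) → (∀ k, 1 ≤ k → k ≤ n → r k < 1) →
    4 * Qlog n r η S Z ZZ ζ = 2 * (1 + η n) * (Z n - ζ) ^ 2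
      + 2 * (∑ k ∈ Finset.range n, (η k - η (k + 1)) * (bs S Z k - ζ) ^ 2)
      + 2 * (∑ j ∈ Finset.range n, ((1 + η (j + 1)) * hh (r (j + 1)) -
          (1 + η (j + 2)) * hh (r (j + 2))) * (bs S ZZ (j + 1) - bs S Z (j + 1)) ^ 2)
      + ∑ j ∈ Finset.range n, lev r η S Z ZZ ζ j

/-- TPS: summation by parts for `T`. -/
def TpsStatement : Prop :=
  ∀ (n c : ℕ) (r S Z ZZ : ℕ → ℝ), c ≤ n → r (n + 1) = 0 → Sta n r S Z ZZ →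
    Tf n c r S ZZ = (1 - S c) * Z n
      + (∑ l ∈ Finset.Ico c n, (dx S l - S c * dy S l) * al r Z ZZ l)
      - bs S ZZ c * ∑ j ∈ Finset.Ico c n, nu r (j + 1) * (1 - S c / S (j + 1))

/-- GPL, the gap inequality. -/
def GapStatement : Prop :=
  ∀ (M b δ r r' : ℝ), 0 ≤ M → 1 / 3 ≤ r' → r' ≤ r → r < 1 →
    Vst M ((1 - r) / r) (b - δ * r / (1 - r)) - 4 / 3 * (hh r - hh r') * δ ^ 2 ≤
      Vst M ((1 - r') / r') (b - δ * r' / (1 - r'))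

/-- GPL, the level inequality. -/
def LevelStatement : Prop :=
  ∀ (ζ g t r η : ℝ), 0 ≤ ζ → 0 ≤ t → t ≤ 1 → 1 / 3 ≤ r → r < 1 → 0 ≤ η → η ≤ 51 / 5000 →
    Vst (51 / 1250 * ζ) ((1 - r) / r) g ≤ Vst (51 / 1250 * ζ) ((1 - r) / r) (t * g)
      + 2 * (1 + η) * (1 - t ^ 2) / (1 - r ^ 2) * ((1 - r) * g) ^ 2
      - 4 * ζ * η * (1 - t) * ((1 - r) * g)

/-- CLU: the cluster of the rates `d_k ≤ 3`. -/
def CluStatement : Prop :=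
  ∀ (n c : ℕ) (lam : ℝ) (r η S Z ZZ : ℕ → ℝ) (ζ : ℝ), Par n c lam r η → Sta n r S Z ZZ →
    0 ≤ ζ → 1 ≤ c →
    -(max 0 (51 / 1250 * ζ - max 0 (bs S Z c - (bs S ZZ c - bs S Z c) / 2))) ^ 2 ≤
      (∑ j ∈ Finset.range c, lev r η S Z ZZ ζ j)
      + 4 / 3 * (∑ j ∈ Finset.range (c - 1), Gs r (j + 1) * (bs S ZZ (j + 1) - bs S Z (j + 1)) ^ 2)
      + 4 / 3 * (hh (r c) - 1 / 8) * (bs S ZZ c - bs S Z c) ^ 2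

/-- P4B: the difference between `η_k` and `λ` in the outer levels. -/
def P4bStatement : Prop :=
  ∀ (n c : ℕ) (lam : ℝ) (r η S Z ZZ : ℕ → ℝ) (ζ : ℝ), Par n c lam r η → Sta n r S Z ZZ → c < n →
    |4 * ζ * ∑ j ∈ Finset.Ico c n, (η (j + 1) - lam) * dx S j * al r Z ZZ j| ≤
      4 / 10000 * (1 - S c) * ζ ^ 2 + 2 / 100000 * (bs S Z c - ζ) ^ 2
      + 1 / 100000 * (bs S ZZ c - bs S Z c) ^ 2 + 1 / 100000 * Bq n c r S Z ζ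
      + 1 / 100 * Gq n c r S Z ZZ

/-- HSB: lower bound for `H`. -/
def HsbStatement : Prop :=
  ∀ (n c : ℕ) (lam Ā : ℝ) (r η S Z ZZ : ℕ → ℝ) (ζ : ℝ), Par n c lam r η → Sta n r S Z ZZ →
    c < n → 0 ≤ Ā → Ā ≤ 2 / 1000000 →
    -(5 / 10000 * (1 - S c) * ζ ^ 2 + 5 / 10000 * (bs S Z c - ζ) ^ 2
      + 1 / 10000 * (bs S ZZ c - bs S Z c) ^ 2 + 1 / 10000 * (Z n - ζ) ^ 2
      + 2 / 100000 * Bq n c r S Z ζ + 1 / 100 * Gq n c r S Z ZZ + 1 / 100 * Lq n c r S Z ZZ) ≤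
      4 * Ā * Hf n c r S Z ZZ

/-- OUT: the outer part. -/
def OutStatement : Prop :=
  ∀ (n c : ℕ) (lam Ā : ℝ) (r η S Z ZZ : ℕ → ℝ) (ζ : ℝ), Par n c lam r η → Sta n r S Z ZZ →
    c < n → 0 ≤ ζ → 0 ≤ Ā → Ā ≤ 2 / 1000000 →
    -(9 / 100 * (Z n - ζ) ^ 2 + 24 / 10000 * (bs S Z c - ζ) ^ 2
      + 11 / 10000 * (bs S ZZ c - bs S Z c) ^ 2
      + 3 / 100000 * Bq n c r S Z ζ + 2 / 100 * Gq n c r S Z ZZ) ≤
      (∑ j ∈ Finset.Ico c n, lev r η S Z ZZ ζ j) + 4 * lam * ζ * Tf n c r S ZZ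
        + 4 * Ā * Hf n c r S Z ZZ

/-- ALG: the algebraic theorem. -/
def AlgStatement : Prop :=
  ∀ (n c : ℕ) (lam Ā : ℝ) (r η S Z ZZ : ℕ → ℝ) (ζ : ℝ), Par n c lam r η → Sta n r S Z ZZ →
    0 ≤ Ā → Ā ≤ 2 / 1000000 →
    1 / 2 * Nf n r S Z ZZ ζ ≤ 4 * Qf n c lam Ā r η S Z ZZ ζ

/-! ### Part B: the weights -/

/-- `1 - n_k / d_k`, with `κ = 1/125` for `k ≤ c` and `κ = 0` for `k > c`. -/
noncomputable def kap (c k : ℕ) : ℝ := if k ≤ c then 1 / 125 else 0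

/-- `Q_k` as a function of `λ`. -/
noncomputable def Qk (c : ℕ) (r : ℕ → ℝ) (k : ℕ) (lam : ℝ) : ℝ :=
  (1 - kap c k * r k - 1 / 50000 * r k ^ 2) * Real.exp (-(lam * r k))

/-- `η_k` as a function of `λ`. -/
noncomputable def etaf (c : ℕ) (r : ℕ → ℝ) (lam : ℝ) (k : ℕ) : ℝ :=
  if k = 0 then 1 else (1 - Qk c r k lam) / r k

/-- ETA: the weights have the required properties. -/
def EtaStatement : Prop :=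
  ∀ (n c : ℕ) (r : ℕ → ℝ) (lam : ℝ), Rts n c r → 1 / 1000 ≤ lam → lam ≤ 1 / 500 →
    Par n c lam r (etaf c r lam)

/-- `λ = 1/1000 + log (b / θ)`. -/
noncomputable def lamf (b θ : ℝ) : ℝ := 1 / 1000 + Real.log (b / θ)

/-- `a(θ) = ∫_{a₀}^θ λ`. -/
noncomputable def Af (a₀ b θ : ℝ) : ℝ :=
  (1 + 1 / 1000 + Real.log b) * (θ - a₀) - θ * Real.log θ + a₀ * Real.log a₀

/-- `β_k(θ) = θ (Λ_k - Λ_{k+1})`. -/
noncomputable def bet (c : ℕ) (r : ℕ → ℝ) (b : ℝ) (k : ℕ) (θ : ℝ) : ℝ :=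
  θ * (Lm r (etaf c r (lamf b θ)) k - Lm r (etaf c r (lamf b θ)) (k + 1))

/-- WTS: calculus of the weights. -/
def WtsStatement : Prop :=
  ∀ (n c : ℕ) (r : ℕ → ℝ) (a₀ b : ℝ), Rts n c r → 0 < a₀ → b ≤ 1001 / 1000 * a₀ →
    ∀ θ : ℝ, a₀ ≤ θ → θ ≤ b →
      (1 / 1000 ≤ lamf b θ ∧ lamf b θ ≤ 1 / 500) ∧
      (0 ≤ Af a₀ b θ ∧ Af a₀ b θ / θ ≤ 2 / 1000000) ∧
      HasDerivAt (Af a₀ b) (lamf b θ) θ ∧
      (∀ k, k ≤ n → 0 ≤ bet c r b k θ) ∧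
      ∑ k ∈ Finset.range (n + 1), bet c r b k θ = θ ∧
      ∀ k, k ≤ n → HasDerivAt (bet c r b k)
        (etaf c r (lamf b θ) k * r k - etaf c r (lamf b θ) (k + 1) * r (k + 1)) θ

/-! ### Part C: the differential equation -/

/-- A positive solution of the system with species `0, …, n` and rates `ρ 0, …, ρ n`. -/
structure SolN (L : ℝ) (m : ℝ → ℝ) (n : ℕ) (ρ : ℕ → ℝ) (u v w : ℕ → ℝ → ℝ → ℝ) : Prop where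
  hL : 0 < L
  cm : ContinuousOn m (Icc 0 L)
  cu : ∀ i, i ≤ n → ContinuousOn (fun p : ℝ × ℝ => u i p.1 p.2) (Ioi 0 ×ˢ Icc 0 L)
  cv : ∀ i, i ≤ n → ContinuousOn (fun p : ℝ × ℝ => v i p.1 p.2) (Ioi 0 ×ˢ Icc 0 L)
  cw : ∀ i, i ≤ n → ContinuousOn (fun p : ℝ × ℝ => w i p.1 p.2) (Ioi 0 ×ˢ Icc 0 L)
  pos : ∀ i, i ≤ n → ∀ t, 0 < t → ∀ x ∈ Icc 0 L, 0 < u i t x
  dx : ∀ i, i ≤ n → ∀ t, 0 < t → DerivOn L (u i t) (v i t)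
  dxx : ∀ i, i ≤ n → ∀ t, 0 < t → DerivOn L (v i t) (w i t)
  b0 : ∀ i, i ≤ n → ∀ t, 0 < t → v i t 0 = 0
  bL : ∀ i, i ≤ n → ∀ t, 0 < t → v i t L = 0
  dt : ∀ i, i ≤ n → ∀ t, 0 < t → ∀ x ∈ Icc 0 L,
    HasDerivAt (fun s => u i s x)
      (ρ i * w i t x + u i t x * (m x - ∑ j ∈ Finset.range (n + 1), u j t x)) t

section pde

/-- `P_k = Σ_{i ≤ k} f_i` (for `f = u t`, or `f = v t`). -/
noncomputable def Ps (f : ℕ → ℝ → ℝ) (k : ℕ) (x : ℝ) : ℝ := ∑ i ∈ Finset.range (k + 1), f i x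

/-- `Σ_{i ≤ k} ρ_i f_i`. -/
noncomputable def Rs (ρ : ℕ → ℝ) (f : ℕ → ℝ → ℝ) (k : ℕ) (x : ℝ) : ℝ :=
  ∑ i ∈ Finset.range (k + 1), ρ i * f i x

/-- `1 / d_k = ρ_0 / ρ_k` for `k ≤ n`, and zero for `k > n`. -/
noncomputable def rr (n : ℕ) (ρ : ℕ → ℝ) (k : ℕ) : ℝ := if k ≤ n then ρ 0 / ρ k else 0

end pde

/-- The rates are ordered. -/
structure Ord (n : ℕ) (ρ : ℕ → ℝ) : Prop where
  pos : 0 < ρ 0
  lt : 1 ≤ n → ρ 0 < ρ 1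
  mono : ∀ k, k < n → ρ k ≤ ρ (k + 1)

/-- RTS: the rates of an ordered system. -/
def RtsStatement : Prop :=
  ∀ (n : ℕ) (ρ : ℕ → ℝ), Ord n ρ → ∃ c : ℕ, Rts n c (rr n ρ)

/-- LGP: time derivative of `∫ f log P_k`. -/
def LgpStatement : Prop :=
  ∀ (L : ℝ) (m : ℝ → ℝ) (n : ℕ) (ρ : ℕ → ℝ) (u v w : ℕ → ℝ → ℝ → ℝ) (f f' : ℝ → ℝ) (k : ℕ),
    SolN L m n ρ u v w → k ≤ n → DerivOn L f f' → ContinuousOn f' (Icc 0 L) → ∀ t, 0 < t →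
    HasDerivAt (fun t => ∫ x in (0)..L, f x * Real.log (Ps (fun i => u i t) k x))
      (∫ x in (0)..L, (f x * (m x - Ps (fun i => u i t) n x)
        - f' x * (Rs ρ (fun i => v i t) k x / Ps (fun i => u i t) k x)
        + f x * (Ps (fun i => v i t) k x / Ps (fun i => u i t) k x *
            (Rs ρ (fun i => v i t) k x / Ps (fun i => u i t) k x)))) t

/-- RTP: time derivative of `∫ f P_c / P_k`. -/
def RtpStatement : Prop :=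
  ∀ (L : ℝ) (m : ℝ → ℝ) (n : ℕ) (ρ : ℕ → ℝ) (u v w : ℕ → ℝ → ℝ → ℝ) (f f' : ℝ → ℝ) (c k : ℕ),
    SolN L m n ρ u v w → c ≤ n → k ≤ n → DerivOn L f f' → ContinuousOn f' (Icc 0 L) →
    ∀ t, 0 < t →
    HasDerivAt (fun t => ∫ x in (0)..L,
        f x * (Ps (fun i => u i t) c x / Ps (fun i => u i t) k x))
      (∫ x in (0)..L,
        (-(f' x * (Rs ρ (fun i => v i t) c x / Ps (fun i => u i t) k x
          - Rs ρ (fun i => v i t) k x * Ps (fun i => u i t) c x / Ps (fun i => u i t) k x ^ 2))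
        + f x * (Rs ρ (fun i => v i t) c x * Ps (fun i => v i t) k x
              / Ps (fun i => u i t) k x ^ 2
            + Rs ρ (fun i => v i t) k x * Ps (fun i => v i t) c x / Ps (fun i => u i t) k x ^ 2
            - 2 * (Rs ρ (fun i => v i t) k x * Ps (fun i => u i t) c x *
                Ps (fun i => v i t) k x / Ps (fun i => u i t) k x ^ 3)))) t

/-- STE: the equation of the steady state, tested with `U / θ`. -/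
def SteStatement : Prop :=
  ∀ (L d : ℝ) (m θ θ' θ'' U U' : ℝ → ℝ), 0 < L → 0 < d → ContinuousOn m (Icc 0 L) →
    Steady L m d θ θ' θ'' → DerivOn L U U' → ContinuousOn U' (Icc 0 L) →
    ∫ x in (0)..L, (U x - θ x) * (m x - θ x) =
      d * ∫ x in (0)..L, θ' x / θ x * (U' x - U x * (θ' x / θ x))

/-- The functional. -/
noncomputable def Fu (L : ℝ) (n c : ℕ) (r : ℕ → ℝ) (β : ℕ → ℝ → ℝ) (A : ℝ → ℝ)
    (u : ℕ → ℝ → ℝ → ℝ) (t : ℝ) : ℝ :=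
  ∫ x in (0)..L, (Ps (fun i => u i t) n x
    - (∑ k ∈ Finset.range (n + 1), β k x * Real.log (Ps (fun i => u i t) k x))
    + ∑ j ∈ Finset.Ico c n, A x * (nu r (j + 1) * (Real.log (Ps (fun i => u i t) (j + 1) x)
        - Real.log (Ps (fun i => u i t) c x) - 1
        + Ps (fun i => u i t) c x / Ps (fun i => u i t) (j + 1) x)))

/-- The fractions `S_k = P_k / U`. -/
noncomputable def Sx (n : ℕ) (f : ℕ → ℝ → ℝ) (x : ℝ) (k : ℕ) : ℝ := Ps f k x / Ps f n x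

/-- `Z_k = P_k' / U`. -/
noncomputable def Zx (n : ℕ) (f f' : ℕ → ℝ → ℝ) (x : ℝ) (k : ℕ) : ℝ := Ps f' k x / Ps f n x

/-- `ZZ_k = R_k' / (ρ_0 U)`. -/
noncomputable def Zzx (n : ℕ) (ρ : ℕ → ℝ) (f f' : ℕ → ℝ → ℝ) (x : ℝ) (k : ℕ) : ℝ :=
  Rs ρ f' k x / (ρ 0 * Ps f n x)

/-- STA: these fields form a state. -/
def StaStatement : Prop :=
  ∀ (n : ℕ) (ρ : ℕ → ℝ) (f f' : ℕ → ℝ → ℝ) (x : ℝ), (∀ i, i ≤ n → 0 < ρ i ∧ 0 < f i x) →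
    Sta n (rr n ρ) (Sx n f x) (Zx n f f' x) (Zzx n ρ f f' x)

/-- DVF: time derivative of the functional. -/
def DvfStatement : Prop :=
  ∀ (L a₀ b : ℝ) (m θ θ' θ'' : ℝ → ℝ) (n c : ℕ) (ρ : ℕ → ℝ) (u v w : ℕ → ℝ → ℝ → ℝ),
    SolN L m n ρ u v w → Ord n ρ → Rts n c (rr n ρ) → Steady L m (ρ 0) θ θ' θ'' → 0 < a₀ →
    b ≤ 1001 / 1000 * a₀ → (∀ x ∈ Icc 0 L, a₀ ≤ θ x ∧ θ x ≤ b) → ∀ t, 0 < t →
    HasDerivAt (Fu L n c (rr n ρ) (fun k x => bet c (rr n ρ) b k (θ x))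
        (fun x => Af a₀ b (θ x)) u)
      (∫ x in (0)..L, (-(Ps (fun i => u i t) n x - θ x) ^ 2
        + ρ 0 * ((Ps (fun i => u i t) n x - θ x) * (θ' x / θ x) *
            (Zx n (fun i => u i t) (fun i => v i t) x n - θ' x / θ x))
        - ρ 0 * θ x * Qf n c (lamf b (θ x)) (Af a₀ b (θ x) / θ x) (rr n ρ)
            (etaf c (rr n ρ) (lamf b (θ x))) (Sx n (fun i => u i t) x)
            (Zx n (fun i => u i t) (fun i => v i t) x)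
            (Zzx n ρ (fun i => u i t) (fun i => v i t) x) (θ' x / θ x))) t

/-- The dissipation at `x`. -/
noncomputable def Dx (n : ℕ) (ρ : ℕ → ℝ) (θ θ' : ℝ → ℝ) (f f' : ℕ → ℝ → ℝ) (x : ℝ) : ℝ :=
  1 / 2 * (Ps f n x - θ x) ^ 2 + ρ 0 / 16 * (θ x *
    Nf n (rr n ρ) (Sx n f x) (Zx n f f' x) (Zzx n ρ f f' x) (θ' x / θ x))

/-- DIS: the functional decreases. -/
def DisStatement : Prop :=
  ∀ (L a₀ b : ℝ) (m θ θ' θ'' : ℝ → ℝ) (n c : ℕ) (ρ : ℕ → ℝ) (u v w : ℕ → ℝ → ℝ → ℝ),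
    SolN L m n ρ u v w → Ord n ρ → Rts n c (rr n ρ) → Steady L m (ρ 0) θ θ' θ'' → 0 < a₀ →
    b ≤ 1001 / 1000 * a₀ → (∀ x ∈ Icc 0 L, a₀ ≤ θ x ∧ θ x ≤ b) →
    (∀ x ∈ Icc 0 L, ρ 0 * (θ' x / θ x) ^ 2 ≤ θ x / 1000) → ∀ t, 0 < t →
    ∃ F' : ℝ, HasDerivAt (Fu L n c (rr n ρ) (fun k x => bet c (rr n ρ) b k (θ x))
        (fun x => Af a₀ b (θ x)) u) F' t ∧
      F' ≤ -∫ x in (0)..L, Dx n ρ θ θ' (fun i => u i t) (fun i => v i t) x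

/-- LBF: the functional is bounded below. -/
def LbfStatement : Prop :=
  ∀ (L a₀ b : ℝ) (m θ θ' θ'' : ℝ → ℝ) (n c : ℕ) (ρ : ℕ → ℝ) (u v w : ℕ → ℝ → ℝ → ℝ),
    SolN L m n ρ u v w → Rts n c (rr n ρ) → Steady L m (ρ 0) θ θ' θ'' → 0 < a₀ →
    b ≤ 1001 / 1000 * a₀ → (∀ x ∈ Icc 0 L, a₀ ≤ θ x ∧ θ x ≤ b) → ∀ t, 0 < t →
    ∫ x in (0)..L, (θ x - θ x * Real.log (θ x)) ≤
      Fu L n c (rr n ρ) (fun k x => bet c (rr n ρ) b k (θ x)) (fun x => Af a₀ b (θ x)) u t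

/-! ### Part D: closeness and conclusion -/

/-- SML: lower bound of the dissipation at a point (static inequality). -/
def SmlStatement : Prop :=
  ∀ (n c : ℕ) (r : ℕ → ℝ), Rts n c r → ∃ C : ℝ, 0 < C ∧ ∀ (S Z ZZ : ℕ → ℝ) (ζ : ℝ),
    Sta n r S Z ZZ →
    ((1 - S 0) * ζ) ^ 2 ≤ C * Nf n r S Z ZZ ζ ∧ (bs S Z 0 - Z n) ^ 2 ≤ 2 * Nf n r S Z ZZ ζ ∧
      (Z n - ζ) ^ 2 ≤ Nf n r S Z ZZ ζ ∧ 0 ≤ Nf n r S Z ZZ ζ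

/-- CLO: small dissipation means close to the steady state. -/
def CloStatement : Prop :=
  ∀ (L : ℝ) (m θ θ' θ'' : ℝ → ℝ) (n c : ℕ) (ρ : ℕ → ℝ) (ε : ℝ), 0 < L →
    ContinuousOn m (Icc 0 L) → (∃ x ∈ Icc 0 L, ∃ y ∈ Icc 0 L, m x ≠ m y) → Ord n ρ →
    Rts n c (rr n ρ) → Steady L m (ρ 0) θ θ' θ'' → 0 < ε → ∃ δ : ℝ, 0 < δ ∧
    ∀ f f' : ℕ → ℝ → ℝ, (∀ i, i ≤ n → DerivOn L (f i) (f' i) ∧ ContinuousOn (f' i) (Icc 0 L) ∧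
      ∀ x ∈ Icc 0 L, 0 < f i x) →
      ∫ x in (0)..L, Dx n ρ θ θ' f f' x < δ →
      ∀ x ∈ Icc 0 L, |f 0 x - θ x| < ε ∧ ∀ i, 1 ≤ i → i ≤ n → f i x < ε

/-- MRG: the present species, ordered. -/
def MrgStatement : Prop :=
  ∀ (L M : ℝ) (m : ℝ → ℝ) (N : ℕ) (d : Fin N → ℝ) (u v w : Fin N → ℝ → ℝ → ℝ) (i₀ : Fin N),
    Ctx L M m d u v w → Pres L u i₀ → (∀ j, j ≠ i₀ → d i₀ < d j) →
    (∀ j, Pres L u j ∨ Absent L u j) →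
    ∃ (n : ℕ) (σ : ℕ → Fin N), σ 0 = i₀ ∧ Ord n (fun k => d (σ k)) ∧
      SolN L m n (fun k => d (σ k)) (fun k => u (σ k)) (fun k => v (σ k)) (fun k => w (σ k)) ∧
      ∀ j, j ≠ i₀ → Absent L u j ∨ ∃ k, 1 ≤ k ∧ k ≤ n ∧ σ k = j

/-- CRI: the criterion. -/
def CriStatement : Prop :=
  ∀ (L a₀ b : ℝ) (m θ θ' θ'' : ℝ → ℝ) (N : ℕ) (d : Fin N → ℝ) (i₀ : Fin N), 0 < L →
    ContinuousOn m (Icc 0 L) → (∃ x ∈ Icc 0 L, ∃ y ∈ Icc 0 L, m x ≠ m y) → 0 < d i₀ →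
    (∀ j, j ≠ i₀ → d i₀ < d j) → Steady L m (d i₀) θ θ' θ'' → 0 < a₀ →
    b ≤ 1001 / 1000 * a₀ → (∀ x ∈ Icc 0 L, a₀ ≤ θ x ∧ θ x ≤ b) →
    (∀ x ∈ Icc 0 L, d i₀ * (θ' x / θ x) ^ 2 ≤ θ x / 1000) → Gas L m d i₀ θ

/-- CRA: `0 < max m ≤ 1.001 min m`. -/
def CraStatement : Prop :=
  ∀ (L a₀ b : ℝ) (m θ θ' θ'' : ℝ → ℝ) (N : ℕ) (d : Fin N → ℝ) (i₀ : Fin N), 0 < L →
    ContinuousOn m (Icc 0 L) → (∃ x ∈ Icc 0 L, ∃ y ∈ Icc 0 L, m x ≠ m y) → 0 < d i₀ →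
    (∀ j, j ≠ i₀ → d i₀ < d j) → Steady L m (d i₀) θ θ' θ'' → 0 < a₀ →
    b ≤ 1001 / 1000 * a₀ → (∀ x ∈ Icc 0 L, a₀ ≤ m x ∧ m x ≤ b) → Gas L m d i₀ θ

/-- CRB: large smallest rate. -/
def CrbStatement : Prop :=
  ∀ (L : ℝ) (m : ℝ → ℝ), 0 < L → ContinuousOn m (Icc 0 L) →
    (∃ x ∈ Icc 0 L, ∃ y ∈ Icc 0 L, m x ≠ m y) → 0 < ∫ x in (0)..L, m x →
    ∃ D : ℝ, 0 < D ∧ ∀ (N : ℕ) (d : Fin N → ℝ) (i₀ : Fin N) (θ θ' θ'' : ℝ → ℝ), D ≤ d i₀ →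
      (∀ j, j ≠ i₀ → d i₀ < d j) → Steady L m (d i₀) θ θ' θ'' → Gas L m d i₀ θ

end Pool.Agent.Lib.MP_4fbe7c_an.UL
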